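import Pool.Agent.GXP.Grp

/-!
# M-expansive pairs of group homomorphisms: the theorem (MP_53e9f9_co)
-/

set_option autoImplicit false

namespace Pool.Agent.GXP

open Finset Pool.Agent.Lib_helper58.MExp

section
variable {S G₁ G₂ K₁ K₂ : Type} [Fintype S] [DecidableEq S] [Group G₁] [Group G₂] [Group K₁]
  [Group K₂]

/-- Necessity for one pair of subgroups: cardinality of the image. -/
theorem card_image₂ (p : S ≃ G₁) (q : S ≃ G₂) (r : K₁ → S) (hr : Function.Injective r)
    (φ : G₁ × G₂ →* K₁) (A : Subgroup G₁) (B : Subgroup G₂) [DecidablePred (fun a => p a ∈ A)]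
    [DecidablePred (fun b => q b ∈ B)] :
    (image₂ (fun a b => r (φ (p a, q b))) (univ.filter fun a => p a ∈ A)
      (univ.filter fun b => q b ∈ B)).card = Nat.card ((A.prod B).map φ) := by
  classical
  rw [← Nat.card_eq_finsetCard]
  symm
  apply Nat.card_congr
  refine Equiv.ofBijective (fun z => ⟨r z.1, ?_⟩) ⟨?_, ?_⟩
  · obtain ⟨⟨a, b⟩, ⟨ha, hb⟩, hz⟩ := z.2
    rw [mem_image₂]
    refine ⟨p.symm a, ?_, q.symm b, ?_, ?_⟩
    · rw [mem_filter]; exact ⟨mem_univ _, by rw [p.apply_symm_apply]; exact ha⟩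
    · rw [mem_filter]; exact ⟨mem_univ _, by rw [q.apply_symm_apply]; exact hb⟩
    · show r (φ (p (p.symm a), q (q.symm b))) = r z.1
      rw [p.apply_symm_apply, q.apply_symm_apply]
      exact congrArg r hz
  · intro z w hzw
    exact Subtype.ext (hr (Subtype.ext_iff.1 hzw))
  · rintro ⟨z, hz⟩
    rw [mem_image₂] at hz
    obtain ⟨a, ha, b, hb, rfl⟩ := hz
    rw [mem_filter] at ha hb
    exact ⟨⟨φ (p a, q b), ⟨(p a, q b), ⟨ha.2, hb.2⟩, rfl⟩⟩, rfl⟩

omit [DecidableEq S] in
theorem card_filter_equiv (p : S ≃ G₁) (A : Subgroup G₁) [DecidablePred (fun a => p a ∈ A)] :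
    (univ.filter fun a => p a ∈ A).card = Nat.card A := by
  classical
  rw [← Nat.card_eq_finsetCard]
  apply Nat.card_congr
  refine Equiv.ofBijective (fun z => ⟨p z.1, (mem_filter.1 z.2).2⟩) ⟨?_, ?_⟩
  · intro z w hzw
    exact Subtype.ext (p.injective (Subtype.ext_iff.1 hzw))
  · rintro ⟨g, hg⟩
    exact ⟨⟨p.symm g, mem_filter.2 ⟨mem_univ _, by rw [p.apply_symm_apply]; exact hg⟩⟩,
      Subtype.ext (p.apply_symm_apply g)⟩

theorem necessity (p : S ≃ G₁) (q : S ≃ G₂) (r : K₁ → S) (s : K₂ → S)
    (hr : Function.Injective r) (hs : Function.Injective s)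
    (φ : G₁ × G₂ →* K₁) (ψ : G₁ × G₂ →* K₂)
    (h : MExpansive (fun a b => r (φ (p a, q b))) (fun a b => s (ψ (p a, q b))))
    (A : Subgroup G₁) (B : Subgroup G₂) : Nat.card A * Nat.card B ≤
      Nat.card ((A.prod B).map φ) * Nat.card ((A.prod B).map ψ) := by
  classical
  have h1 := h (fun _ => 1) (fun _ => 1) (fun _ => 1) (fun _ => 1)
    ⟨fun _ => zero_le_one, fun _ => zero_le_one, fun _ => zero_le_one, fun _ => zero_le_one,
      fun _ _ => le_rfl⟩ (univ.filter fun a => p a ∈ A) (univ.filter fun b => q b ∈ B)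
  simp only [sum_const, nsmul_eq_mul, mul_one] at h1
  rw [card_filter_equiv p A, card_filter_equiv q B, card_image₂ p q r hr φ A B,
    card_image₂ p q s hs ψ A B] at h1
  exact_mod_cast h1

omit [Fintype S] in
theorem sum_range_le (r : K₁ → S) (hr : Function.Injective r)
    (φ : G₁ × G₂ →* K₁) [Fintype φ.range] (γ : S → ℝ) (hγ : ∀ s, 0 ≤ γ s) (T : Finset S) :
    ∑ c : φ.range, (if r c ∈ T then γ (r c) else 0) ≤ ∑ c ∈ T, γ c := by
  classical
  rw [← Finset.sum_filter]
  have hi : Set.InjOn (fun c : φ.range => r c)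
      ((univ.filter fun c : φ.range => r c ∈ T) : Finset φ.range) :=
    fun a _ b _ e => Subtype.ext (hr e)
  rw [← Finset.sum_image (f := γ) (g := fun c : φ.range => r c) hi]
  apply Finset.sum_le_sum_of_subset_of_nonneg
  · intro x hx
    obtain ⟨c, hc, rfl⟩ := mem_image.1 hx
    exact (mem_filter.1 hc).2
  · intro x _ _
    exact hγ x

theorem sufficiency (p : S ≃ G₁) (q : S ≃ G₂) (r : K₁ → S) (s : K₂ → S)
    (hr : Function.Injective r) (hs : Function.Injective s)
    (φ : G₁ × G₂ →* K₁) (ψ : G₁ × G₂ →* K₂)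
    (h : ∀ (A : Subgroup G₁) (B : Subgroup G₂), Nat.card A * Nat.card B ≤
      Nat.card ((A.prod B).map φ) * Nat.card ((A.prod B).map ψ)) :
    MExpansive (fun a b => r (φ (p a, q b))) (fun a b => s (ψ (p a, q b))) := by
  classical
  have : Fintype G₁ := Fintype.ofEquiv S p
  have : Fintype G₂ := Fintype.ofEquiv S q
  have : Finite K₁ := Finite.of_injective r hr
  have : Finite K₂ := Finite.of_injective s hs
  have : Fintype φ.range := Fintype.ofFinite _
  have : Fintype ψ.range := Fintype.ofFinite _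
  have hc : Cond φ.rangeRestrict ψ.rangeRestrict := by
    intro A B
    have e1 : Nat.card ((A.prod B).map φ.rangeRestrict) = Nat.card ((A.prod B).map φ) := by
      have : ((A.prod B).map φ.rangeRestrict).map φ.range.subtype = (A.prod B).map φ := by
        rw [Subgroup.map_map]; rfl
      rw [← this]
      exact (Nat.card_congr (Subgroup.equivMapOfInjective _ φ.range.subtype
        (Subgroup.subtype_injective _)).toEquiv)
    have e2 : Nat.card ((A.prod B).map ψ.rangeRestrict) = Nat.card ((A.prod B).map ψ) := by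
      have : ((A.prod B).map ψ.rangeRestrict).map ψ.range.subtype = (A.prod B).map ψ := by
        rw [Subgroup.map_map]; rfl
      rw [← this]
      exact (Nat.card_congr (Subgroup.equivMapOfInjective _ ψ.range.subtype
        (Subgroup.subtype_injective _)).toEquiv)
    rw [e1, e2]
    exact h A B
  have hexp := main_exp (Nat.card G₁) G₁ G₂ φ.range ψ.range φ.rangeRestrict ψ.rangeRestrict
    φ.rangeRestrict_surjective ψ.rangeRestrict_surjective le_rfl hc
  rintro α β γ δ ⟨hα, hβ, hγ, hδ, hcomp⟩ A B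
  set Φ : S → S → S := fun a b => r (φ (p a, q b)) with hΦ
  set Ψ : S → S → S := fun a b => s (ψ (p a, q b)) with hΨ
  have key := hexp (fun g => if p.symm g ∈ A then α (p.symm g) else 0)
    (fun g => if q.symm g ∈ B then β (q.symm g) else 0)
    (fun c => if r c ∈ image₂ Φ A B then γ (r c) else 0)
    (fun d => if s d ∈ image₂ Ψ A B then δ (s d) else 0)
    (fun g => by split_ifs; exacts [hα _, le_rfl])
    (fun g => by split_ifs; exacts [hβ _, le_rfl])
    (fun g => by split_ifs; exacts [hγ _, le_rfl])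
    (fun g => by split_ifs; exacts [hδ _, le_rfl]) ?_
  · have e1 : ∑ g : G₁, (if p.symm g ∈ A then α (p.symm g) else 0) = ∑ a ∈ A, α a := by
      rw [Equiv.sum_comp p.symm (fun a => if a ∈ A then α a else 0)]
      simp
    have e2 : ∑ g : G₂, (if q.symm g ∈ B then β (q.symm g) else 0) = ∑ b ∈ B, β b := by
      rw [Equiv.sum_comp q.symm (fun a => if a ∈ B then β a else 0)]
      simp
    rw [e1, e2] at key
    refine key.trans ?_
    refine mul_le_mul (sum_range_le r hr φ γ hγ _) (sum_range_le s hs ψ δ hδ _) ?_ ?_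
    · exact Finset.sum_nonneg fun d _ => by split_ifs; exacts [hδ _, le_rfl]
    · exact Finset.sum_nonneg fun c _ => hγ _
  · intro g k
    show (if p.symm g ∈ A then α (p.symm g) else 0) * (if q.symm k ∈ B then β (q.symm k) else 0) ≤
      (if r (φ (g, k)) ∈ image₂ Φ A B then γ (r (φ (g, k))) else 0) *
        (if s (ψ (g, k)) ∈ image₂ Ψ A B then δ (s (ψ (g, k))) else 0)
    have hnn : 0 ≤ (if r (φ (g, k)) ∈ image₂ Φ A B then γ (r (φ (g, k))) else 0) *
        (if s (ψ (g, k)) ∈ image₂ Ψ A B then δ (s (ψ (g, k))) else 0) := by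
      apply mul_nonneg
      · split_ifs; exacts [hγ _, le_rfl]
      · split_ifs; exacts [hδ _, le_rfl]
    by_cases hg : p.symm g ∈ A
    · by_cases hk : q.symm k ∈ B
      · have h1 : Φ (p.symm g) (q.symm k) = r (φ (g, k)) := by
          show r (φ (p (p.symm g), q (q.symm k))) = _
          rw [p.apply_symm_apply, q.apply_symm_apply]
        have h2 : Ψ (p.symm g) (q.symm k) = s (ψ (g, k)) := by
          show s (ψ (p (p.symm g), q (q.symm k))) = _
          rw [p.apply_symm_apply, q.apply_symm_apply]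
        have m1 : r (φ (g, k)) ∈ image₂ Φ A B := by
          rw [← h1]; exact mem_image₂_of_mem hg hk
        have m2 : s (ψ (g, k)) ∈ image₂ Ψ A B := by
          rw [← h2]; exact mem_image₂_of_mem hg hk
        rw [if_pos hg, if_pos hk, if_pos m1, if_pos m2, ← h1, ← h2]
        exact hcomp _ _
      · rw [if_neg hk, mul_zero]; exact hnn
    · rw [if_neg hg, zero_mul]; exact hnn

end

/-! ### Affine pairs on finite abelian groups -/

section
variable {G : Type} [AddCommGroup G]

/-- `(a, b) ↦ P a + Q b`, written multiplicatively. -/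
def lin (P Q : G →+ G) : Multiplicative G × Multiplicative G →* Multiplicative G where
  toFun x := Multiplicative.ofAdd (P x.1.toAdd + Q x.2.toAdd)
  map_one' := by
    show Multiplicative.ofAdd (P (Multiplicative.toAdd 1) + Q (Multiplicative.toAdd 1)) = 1
    rw [toAdd_one, map_zero, map_zero, add_zero, ofAdd_zero]
  map_mul' x y := by
    show Multiplicative.ofAdd (P (x.1.toAdd + y.1.toAdd) + Q (x.2.toAdd + y.2.toAdd)) =
      Multiplicative.ofAdd ((P x.1.toAdd + Q x.2.toAdd) + (P y.1.toAdd + Q y.2.toAdd))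
    rw [P.map_add, Q.map_add]
    congr 1
    abel

theorem card_lin (P Q : G →+ G) (A B : AddSubgroup G) :
    Nat.card (((AddSubgroup.toSubgroup A).prod (AddSubgroup.toSubgroup B)).map (lin P Q))
      = Nat.card ↥(A.map P ⊔ B.map Q) := by
  apply Nat.card_congr
  refine Equiv.subtypeEquiv Multiplicative.toAdd ?_
  intro z
  constructor
  · rintro ⟨⟨a, b⟩, ⟨ha, hb⟩, rfl⟩
    exact AddSubgroup.add_mem_sup ⟨a.toAdd, ha, rfl⟩ ⟨b.toAdd, hb, rfl⟩
  · intro hz
    obtain ⟨x, hx, y, hy, hxy⟩ := AddSubgroup.mem_sup.1 hz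
    obtain ⟨a, ha, rfl⟩ := hx
    obtain ⟨b, hb, rfl⟩ := hy
    exact ⟨(Multiplicative.ofAdd a, Multiplicative.ofAdd b), ⟨ha, hb⟩, hxy⟩

theorem affine [Fintype G] [DecidableEq G] (P Q R T : G →+ G) (c d : G) :
    MExpansive (fun a b => P a + Q b + c) (fun a b => R a + T b + d) ↔
      ∀ A B : AddSubgroup G, Nat.card A * Nat.card B ≤
        Nat.card ↥(A.map P ⊔ B.map Q) * Nat.card ↥(A.map R ⊔ B.map T) := by
  have hr : Function.Injective (fun z : Multiplicative G => z.toAdd + c) :=
    fun x y e => Multiplicative.toAdd.injective (add_right_cancel e)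
  have hs : Function.Injective (fun z : Multiplicative G => z.toAdd + d) :=
    fun x y e => Multiplicative.toAdd.injective (add_right_cancel e)
  constructor
  · intro h A B
    have := necessity (S := G) Multiplicative.ofAdd Multiplicative.ofAdd
      (fun z => z.toAdd + c) (fun z => z.toAdd + d) hr hs (lin P Q) (lin R T) h
      (AddSubgroup.toSubgroup A) (AddSubgroup.toSubgroup B)
    rw [card_lin, card_lin] at this
    exact this
  · intro h
    refine sufficiency (S := G) Multiplicative.ofAdd Multiplicative.ofAdd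
      (fun z => z.toAdd + c) (fun z => z.toAdd + d) hr hs (lin P Q) (lin R T) ?_
    intro A B
    have := h (AddSubgroup.toSubgroup.symm A) (AddSubgroup.toSubgroup.symm B)
    rw [← card_lin, ← card_lin, OrderIso.apply_symm_apply, OrderIso.apply_symm_apply] at this
    exact this

end

end Pool.Agent.GXP
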