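import Pool.Agent.GXP.Two
import Pool.Agent.GXP.Fin

/-!
# M-expansive pairs `P(a)Q(b)`, `R(a)T(b)` with group homomorphisms (MP_53e9f9_co)
-/

set_option autoImplicit false

namespace Pool.Agent.GXP

open Finset Pool.Agent.Lib_helper58.MExp

/-- From total sums to the inequality for sets. -/
theorem mexp_of_exp {S : Type} [Fintype S] [DecidableEq S] (Φ Ψ : S → S → S) (h : Exp Φ Ψ) :
    MExpansive Φ Ψ := by
  classical
  rintro α β γ δ ⟨hα, hβ, hγ, hδ, hcomp⟩ A B
  have key := h (fun g => if g ∈ A then α g else 0)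
    (fun g => if g ∈ B then β g else 0)
    (fun c => if c ∈ image₂ Φ A B then γ c else 0)
    (fun d => if d ∈ image₂ Ψ A B then δ d else 0)
    (fun g => by split_ifs; exacts [hα _, le_rfl])
    (fun g => by split_ifs; exacts [hβ _, le_rfl])
    (fun g => by split_ifs; exacts [hγ _, le_rfl])
    (fun g => by split_ifs; exacts [hδ _, le_rfl]) ?_
  · simp only [Finset.sum_ite_mem, Finset.univ_inter] at key
    exact key
  · intro g k
    have hnn : 0 ≤ (if Φ g k ∈ image₂ Φ A B then γ (Φ g k) else 0) *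
        (if Ψ g k ∈ image₂ Ψ A B then δ (Ψ g k) else 0) := by
      apply mul_nonneg
      · split_ifs; exacts [hγ _, le_rfl]
      · split_ifs; exacts [hδ _, le_rfl]
    by_cases hg : g ∈ A
    · by_cases hk : k ∈ B
      · rw [if_pos hg, if_pos hk, if_pos (mem_image₂_of_mem hg hk), if_pos (mem_image₂_of_mem hg hk)]
        exact hcomp _ _
      · rw [if_neg hk, mul_zero]; exact hnn
    · rw [if_neg hg, zero_mul]; exact hnn

/-- A criterion for arbitrary pairs: two partitions. -/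
theorem mexp_two {S A' B' : Type} [Fintype S] [DecidableEq S] (φ ψ : S → S → S) (p : S → A')
    (q : S → B')
    (h1 : ∀ a b b', q b = q b' → φ a b = φ a b' → b = b')
    (h2 : ∀ a a' b b', q b = q b' → φ a b = φ a' b' → p a = p a')
    (h3 : ∀ a a' b, p a = p a' → ψ a b = ψ a' b → a = a')
    (h4 : ∀ a a' b b', p a = p a' → ψ a b = ψ a' b' → q b = q b') : MExpansive φ ψ := by
  classical
  have : Fintype (Set.range p) := Fintype.ofFinite _
  have : Fintype (Set.range q) := Fintype.ofFinite _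
  have hp : ∀ a a' : S, (⟨p a, a, rfl⟩ : Set.range p) = ⟨p a', a', rfl⟩ ↔ p a = p a' :=
    fun a a' => Subtype.mk_eq_mk
  have hq : ∀ a a' : S, (⟨q a, a, rfl⟩ : Set.range q) = ⟨q a', a', rfl⟩ ↔ q a = q a' :=
    fun a a' => Subtype.mk_eq_mk
  refine mexp_of_exp φ ψ (exp_two φ ψ (A' := Set.range p) (B' := Set.range q)
    (fun a => ⟨p a, a, rfl⟩) (fun b => ⟨q b, b, rfl⟩) ?_ ?_ ?_ ?_)
  · intro a b b' h
    exact h1 a b b' ((hq _ _).1 h)
  · intro a a' b b' h e
    exact (hp _ _).2 (h2 a a' b b' ((hq _ _).1 h) e)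
  · intro a a' b h
    exact h3 a a' b ((hp _ _).1 h)
  · intro a a' b b' h e
    exact (hq _ _).2 (h4 a a' b b' ((hp _ _).1 h) e)

section
variable {S G₁ G₂ K₁ K₂ : Type} [Fintype S] [DecidableEq S] [Group G₁] [Group G₂] [Group K₁]
  [Group K₂]

omit [Group K₁] in
/-- Cardinality of the image. -/
theorem card_image₂' (p : S ≃ G₁) (q : S ≃ G₂) (r : K₁ → S) (hr : Function.Injective r)
    (φ : G₁ → G₂ → K₁) (A : Subgroup G₁) (B : Subgroup G₂) [DecidablePred (fun a => p a ∈ A)]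
    [DecidablePred (fun b => q b ∈ B)] :
    (image₂ (fun a b => r (φ (p a) (q b))) (univ.filter fun a => p a ∈ A)
      (univ.filter fun b => q b ∈ B)).card =
      (Set.image2 φ (A : Set G₁) (B : Set G₂)).ncard := by
  classical
  rw [← Set.ncard_coe_finset, ← Set.ncard_image_of_injective _ hr]
  congr 1
  ext z
  constructor
  · intro hz
    rw [mem_coe, mem_image₂] at hz
    obtain ⟨a, ha, b, hb, rfl⟩ := hz
    rw [mem_filter] at ha hb
    exact ⟨φ (p a) (q b), ⟨p a, ha.2, q b, hb.2, rfl⟩, rfl⟩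
  · rintro ⟨_, ⟨a, ha, b, hb, rfl⟩, rfl⟩
    rw [mem_coe, mem_image₂]
    refine ⟨p.symm a, ?_, q.symm b, ?_, ?_⟩
    · rw [mem_filter]; exact ⟨mem_univ _, by rw [p.apply_symm_apply]; exact ha⟩
    · rw [mem_filter]; exact ⟨mem_univ _, by rw [q.apply_symm_apply]; exact hb⟩
    · rw [p.apply_symm_apply, q.apply_symm_apply]

omit [Group K₁] [Group K₂] in
theorem necessity' (p : S ≃ G₁) (q : S ≃ G₂) (r : K₁ → S) (s : K₂ → S)
    (hr : Function.Injective r) (hs : Function.Injective s)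
    (φ : G₁ → G₂ → K₁) (ψ : G₁ → G₂ → K₂)
    (h : MExpansive (fun a b => r (φ (p a) (q b))) (fun a b => s (ψ (p a) (q b))))
    (A : Subgroup G₁) (B : Subgroup G₂) : Nat.card A * Nat.card B ≤
      (Set.image2 φ (A : Set G₁) (B : Set G₂)).ncard *
      (Set.image2 ψ (A : Set G₁) (B : Set G₂)).ncard := by
  classical
  have h1 := h (fun _ => 1) (fun _ => 1) (fun _ => 1) (fun _ => 1)
    ⟨fun _ => zero_le_one, fun _ => zero_le_one, fun _ => zero_le_one, fun _ => zero_le_one,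
      fun _ _ => le_rfl⟩ (univ.filter fun a => p a ∈ A) (univ.filter fun b => q b ∈ B)
  simp only [sum_const, nsmul_eq_mul, mul_one] at h1
  rw [card_filter_equiv p A, card_filter_equiv q B, card_image₂' p q r hr φ A B,
    card_image₂' p q s hs ψ A B] at h1
  exact_mod_cast h1

end

section
variable {G₁ G₂ K₁ K₂ : Type} [Group G₁] [Group G₂] [Group K₁] [Group K₂]

/-- The four implications used for sufficiency: cosets of `U` and `V`. -/
theorem coset_facts (P : G₁ →* K₁) (Q : G₂ →* K₁) (U : Subgroup G₁) (V : Subgroup G₂)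
    (hU : U = (V.map Q).comap P) (hQ : Set.InjOn Q V) :
    (∀ a b b', (QuotientGroup.mk b⁻¹ : G₂ ⧸ V) = QuotientGroup.mk b'⁻¹ →
      P a * Q b = P a * Q b' → b = b') ∧
    (∀ a a' b b', (QuotientGroup.mk b⁻¹ : G₂ ⧸ V) = QuotientGroup.mk b'⁻¹ →
      P a * Q b = P a' * Q b' → (QuotientGroup.mk a : G₁ ⧸ U) = QuotientGroup.mk a') := by
  have hV : ∀ b b' : G₂, (QuotientGroup.mk b⁻¹ : G₂ ⧸ V) = QuotientGroup.mk b'⁻¹ →
      b * b'⁻¹ ∈ V := by
    intro b b' h
    have := QuotientGroup.eq.1 h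
    rwa [inv_inv] at this
  constructor
  · intro a b b' h e
    have h1 := hV b b' h
    have h2 : Q (b * b'⁻¹) = Q 1 := by
      rw [map_mul, map_inv, map_one, mul_left_cancel e, mul_inv_cancel]
    have h3 := hQ h1 V.one_mem h2
    exact mul_inv_eq_one.1 h3
  · intro a a' b b' h e
    rw [QuotientGroup.eq, hU, Subgroup.mem_comap]
    refine ⟨b * b'⁻¹, hV b b' h, ?_⟩
    rw [map_mul, map_mul, map_inv, map_inv]
    rw [eq_inv_mul_iff_mul_eq, ← mul_assoc, e, mul_assoc, mul_inv_cancel, mul_one]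

theorem coset_facts' (R : G₁ →* K₂) (T : G₂ →* K₂) (U : Subgroup G₁) (V : Subgroup G₂)
    (hV : V = (U.map R).comap T) (hR : Set.InjOn R U) :
    (∀ a a' b, (QuotientGroup.mk a : G₁ ⧸ U) = QuotientGroup.mk a' →
      R a * T b = R a' * T b → a = a') ∧
    (∀ a a' b b', (QuotientGroup.mk a : G₁ ⧸ U) = QuotientGroup.mk a' →
      R a * T b = R a' * T b' → (QuotientGroup.mk b⁻¹ : G₂ ⧸ V) = QuotientGroup.mk b'⁻¹) := by
  constructor
  · intro a a' b h e
    have h1 : a⁻¹ * a' ∈ U := QuotientGroup.eq.1 h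
    have h2 : R (a⁻¹ * a') = R 1 := by
      rw [map_mul, map_inv, map_one, mul_right_cancel e, inv_mul_cancel]
    have h3 := hR h1 U.one_mem h2
    exact (inv_mul_eq_one.1 h3)
  · intro a a' b b' h e
    have h1 : a⁻¹ * a' ∈ U := QuotientGroup.eq.1 h
    rw [QuotientGroup.eq, inv_inv, hV, Subgroup.mem_comap]
    refine ⟨a⁻¹ * a', h1, ?_⟩
    rw [map_mul, map_mul, map_inv, map_inv]
    rw [eq_mul_inv_iff_mul_eq, mul_assoc, ← e, ← mul_assoc, inv_mul_cancel, one_mul]

/-- (iii) from (ii). -/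
theorem inj_of_card [Finite G₁] [Finite G₂] (P : G₁ →* K₁) (Q : G₂ →* K₁) (R : G₁ →* K₂)
    (T : G₂ →* K₂)
    (h : ∀ (A : Subgroup G₁) (B : Subgroup G₂), Nat.card A * Nat.card B ≤
      (Set.image2 (fun a b => P a * Q b) (A : Set G₁) (B : Set G₂)).ncard *
      (Set.image2 (fun a b => R a * T b) (A : Set G₁) (B : Set G₂)).ncard)
    (U : Subgroup G₁) (V : Subgroup G₂) (hU : U = (V.map Q).comap P)
    (hV : V = (U.map R).comap T) : Set.InjOn Q V ∧ Set.InjOn R U := by
  classical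
  have e1 : Set.image2 (fun a b => P a * Q b) (U : Set G₁) (V : Set G₂) ⊆ Q '' V := by
    rintro _ ⟨a, ha, b, hb, rfl⟩
    have ha' : a ∈ (V.map Q).comap P := hU ▸ ha
    obtain ⟨v, hv, hve⟩ := ha'
    exact ⟨v * b, V.mul_mem hv hb, by show Q (v * b) = P a * Q b; rw [map_mul]; rw [← hve]⟩
  have e2 : Set.image2 (fun a b => R a * T b) (U : Set G₁) (V : Set G₂) ⊆ R '' U := by
    rintro _ ⟨a, ha, b, hb, rfl⟩
    have hb' : b ∈ (U.map R).comap T := hV ▸ hb
    obtain ⟨u, hu, hue⟩ := hb'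
    exact ⟨a * u, U.mul_mem ha hu, by show R (a * u) = R a * T b; rw [map_mul]; rw [← hue]⟩
  have f1 := Set.ncard_le_ncard e1 (Set.toFinite _)
  have f2 := Set.ncard_le_ncard e2 (Set.toFinite _)
  have g1 : (Q '' (V : Set G₂)).ncard ≤ (V : Set G₂).ncard := Set.ncard_image_le (Set.toFinite _)
  have g2 : (R '' (U : Set G₁)).ncard ≤ (U : Set G₁).ncard := Set.ncard_image_le (Set.toFinite _)
  have hUV := h U V
  have cU : (U : Set G₁).ncard = Nat.card U := rfl
  have cV : (V : Set G₂).ncard = Nat.card V := rfl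
  rw [← cU, ← cV] at hUV
  have pU : 0 < (U : Set G₁).ncard := (Set.ncard_pos (Set.toFinite _)).2 ⟨1, U.one_mem⟩
  have pV : 0 < (V : Set G₂).ncard := (Set.ncard_pos (Set.toFinite _)).2 ⟨1, V.one_mem⟩
  have hm : (U : Set G₁).ncard * (V : Set G₂).ncard ≤
      (Q '' (V : Set G₂)).ncard * (R '' (U : Set G₁)).ncard := hUV.trans (Nat.mul_le_mul f1 f2)
  constructor
  · apply (Set.ncard_image_iff (Set.toFinite _)).1
    refine le_antisymm g1 ?_
    by_contra hlt
    rw [not_le] at hlt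
    have : (Q '' (V : Set G₂)).ncard * (R '' (U : Set G₁)).ncard <
        (V : Set G₂).ncard * (U : Set G₁).ncard :=
      Nat.mul_lt_mul_of_lt_of_le hlt g2 pU
    rw [mul_comm (V : Set G₂).ncard] at this
    exact absurd hm (not_le.2 this)
  · apply (Set.ncard_image_iff (Set.toFinite _)).1
    refine le_antisymm g2 ?_
    by_contra hlt
    rw [not_le] at hlt
    have : (Q '' (V : Set G₂)).ncard * (R '' (U : Set G₁)).ncard <
        (V : Set G₂).ncard * (U : Set G₁).ncard :=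
      Nat.mul_lt_mul_of_le_of_lt g1 hlt pV
    rw [mul_comm (V : Set G₂).ncard] at this
    exact absurd hm (not_le.2 this)

/-- There is a fixed pair. -/
theorem exists_fixed (P : G₁ →* K₁) (Q : G₂ →* K₁) (R : G₁ →* K₂) (T : G₂ →* K₂) :
    ∃ (U : Subgroup G₁) (V : Subgroup G₂), U = (V.map Q).comap P ∧ V = (U.map R).comap T := by
  let f : Subgroup G₁ →o Subgroup G₁ :=
    ⟨fun U => ((((U.map R).comap T).map Q).comap P), fun U U' h =>
      Subgroup.comap_mono (Subgroup.map_mono (Subgroup.comap_mono (Subgroup.map_mono h)))⟩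
  refine ⟨OrderHom.lfp f, ((OrderHom.lfp f).map R).comap T, ?_, rfl⟩
  exact (OrderHom.map_lfp f).symm

end

section
variable {S G₁ G₂ K₁ K₂ : Type} [Fintype S] [DecidableEq S] [Group G₁] [Group G₂] [Group K₁]
  [Group K₂]

theorem sufficiency' (p : S ≃ G₁) (q : S ≃ G₂) (r : K₁ → S) (s : K₂ → S)
    (hr : Function.Injective r) (hs : Function.Injective s)
    (P : G₁ →* K₁) (Q : G₂ →* K₁) (R : G₁ →* K₂) (T : G₂ →* K₂) (U : Subgroup G₁)
    (V : Subgroup G₂) (hU : U = (V.map Q).comap P) (hV : V = (U.map R).comap T)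
    (hQ : Set.InjOn Q V) (hR : Set.InjOn R U) :
    MExpansive (fun a b => r (P (p a) * Q (q b))) (fun a b => s (R (p a) * T (q b))) := by
  obtain ⟨k1, k2⟩ := coset_facts P Q U V hU hQ
  obtain ⟨k3, k4⟩ := coset_facts' R T U V hV hR
  refine mexp_two _ _ (fun a => (QuotientGroup.mk (p a) : G₁ ⧸ U))
    (fun b => (QuotientGroup.mk (q b)⁻¹ : G₂ ⧸ V)) ?_ ?_ ?_ ?_
  · intro a b b' h e
    exact q.injective (k1 _ _ _ h (hr e))
  · intro a a' b b' h e
    exact k2 _ _ _ _ h (hr e)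
  · intro a a' b h e
    exact p.injective (k3 _ _ _ h (hs e))
  · intro a a' b b' h e
    exact k4 _ _ _ _ h (hs e)

theorem criterion (p : S ≃ G₁) (q : S ≃ G₂) (r : K₁ → S) (s : K₂ → S)
    (hr : Function.Injective r) (hs : Function.Injective s)
    (P : G₁ →* K₁) (Q : G₂ →* K₁) (R : G₁ →* K₂) (T : G₂ →* K₂) :
    List.TFAE
      [MExpansive (fun a b => r (P (p a) * Q (q b))) (fun a b => s (R (p a) * T (q b))),
        ∀ (A : Subgroup G₁) (B : Subgroup G₂), Nat.card A * Nat.card B ≤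
          (Set.image2 (fun a b => P a * Q b) (A : Set G₁) (B : Set G₂)).ncard *
          (Set.image2 (fun a b => R a * T b) (A : Set G₁) (B : Set G₂)).ncard,
        ∀ (U : Subgroup G₁) (V : Subgroup G₂), U = (V.map Q).comap P → V = (U.map R).comap T →
          Set.InjOn Q V ∧ Set.InjOn R U,
        ∃ (U : Subgroup G₁) (V : Subgroup G₂), U = (V.map Q).comap P ∧ V = (U.map R).comap T ∧
          Set.InjOn Q V ∧ Set.InjOn R U] := by
  have : Finite G₁ := Finite.of_equiv S p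
  have : Finite G₂ := Finite.of_equiv S q
  tfae_have 1 → 2
  | h => necessity' p q r s hr hs (fun a b => P a * Q b) (fun a b => R a * T b) h
  tfae_have 2 → 3
  | h => fun U V hU hV => inj_of_card P Q R T h U V hU hV
  tfae_have 3 → 4
  | h => by
    obtain ⟨U, V, hU, hV⟩ := exists_fixed P Q R T
    exact ⟨U, V, hU, hV, h U V hU hV⟩
  tfae_have 4 → 1
  | ⟨U, V, hU, hV, hQ, hR⟩ => sufficiency' p q r s hr hs P Q R T U V hU hV hQ hR
  tfae_finish

end

end Pool.Agent.GXP
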