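import Pool.Agent.Lib_helper58.MExp.Core

/-!
# M-expansive pairs of group homomorphisms: general facts (MP_53e9f9_co)
-/

set_option autoImplicit false

namespace Pool.Agent.GXP

open Finset

universe u

/-- The inequality for total sums, for maps between different finite sets. -/
def Exp {A B C D : Type u} [Fintype A] [Fintype B] [Fintype C] [Fintype D]
    (φ : A → B → C) (ψ : A → B → D) : Prop :=
  ∀ (α : A → ℝ) (β : B → ℝ) (γ : C → ℝ) (δ : D → ℝ), (∀ a, 0 ≤ α a) → (∀ b, 0 ≤ β b) →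
    (∀ c, 0 ≤ γ c) → (∀ d, 0 ≤ δ d) → (∀ a b, α a * β b ≤ γ (φ a b) * δ (ψ a b)) →
    (∑ a, α a) * (∑ b, β b) ≤ (∑ c, γ c) * ∑ d, δ d

section
variable {A B C D : Type u}

/-- An injective pair. -/
theorem exp_of_inj [Fintype A] [Fintype B] [Fintype C] [Fintype D] (φ : A → B → C)
    (ψ : A → B → D) (h : Function.Injective fun x : A × B => (φ x.1 x.2, ψ x.1 x.2)) :
    Exp φ ψ := by
  classical
  intro α β γ δ hα hβ hγ hδ hc
  calc (∑ a, α a) * ∑ b, β b = ∑ x : A × B, α x.1 * β x.2 := by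
        rw [Finset.sum_mul_sum, Fintype.sum_prod_type]
    _ ≤ ∑ x : A × B, γ (φ x.1 x.2) * δ (ψ x.1 x.2) := sum_le_sum fun x _ => hc x.1 x.2
    _ = ∑ y ∈ univ.image (fun x : A × B => (φ x.1 x.2, ψ x.1 x.2)), γ y.1 * δ y.2 := by
        rw [Finset.sum_image h.injOn]
    _ ≤ ∑ y : C × D, γ y.1 * δ y.2 :=
        Finset.sum_le_univ_sum_of_nonneg fun y => mul_nonneg (hγ _) (hδ _)
    _ = (∑ c, γ c) * ∑ d, δ d := by
        rw [Finset.sum_mul_sum, Fintype.sum_prod_type]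

theorem half (S : Finset B) (S₃ : Finset C) (S₄ : Finset D) (f : B → C) (g : B → D)
    (β : B → ℝ) (γ : C → ℝ) (δ : D → ℝ) (a M : ℝ) (ha : 0 ≤ a)
    (hβ : ∀ b, 0 ≤ β b) (hγ : ∀ c, 0 ≤ γ c) (hδ : ∀ d, 0 ≤ δ d) (hM0 : 0 ≤ M)
    (hM : ∀ b ∈ S, β b ≤ M) (hc : ∀ b ∈ S, a * β b ≤ γ (f b) * δ (g b))
    (hf : Set.InjOn f S) (hg : Set.InjOn g S) (mf : ∀ b ∈ S, f b ∈ S₃)
    (mg : ∀ b ∈ S, g b ∈ S₄) :
    a * (∑ b ∈ S, β b) ^ 2 ≤ M * ((∑ c ∈ S₃, γ c) * ∑ d ∈ S₄, δ d) := by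
  classical
  have h1 : ∑ b ∈ S, γ (f b) ≤ ∑ c ∈ S₃, γ c := by
    rw [← Finset.sum_image (f := γ) hf]
    refine Finset.sum_le_sum_of_subset_of_nonneg ?_ (fun c _ _ => hγ c)
    intro c hcm
    obtain ⟨b, hb, rfl⟩ := Finset.mem_image.1 hcm
    exact mf b hb
  have h2 : ∑ b ∈ S, δ (g b) ≤ ∑ d ∈ S₄, δ d := by
    rw [← Finset.sum_image (f := δ) hg]
    refine Finset.sum_le_sum_of_subset_of_nonneg ?_ (fun d _ _ => hδ d)
    intro d hd
    obtain ⟨b, hb, rfl⟩ := Finset.mem_image.1 hd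
    exact mg b hb
  have h3 : (∑ b ∈ S, Real.sqrt (γ (f b)) * Real.sqrt (δ (g b))) ^ 2 ≤
      (∑ b ∈ S, γ (f b)) * ∑ b ∈ S, δ (g b) := by
    have := Finset.sum_mul_sq_le_sq_mul_sq S (fun b => Real.sqrt (γ (f b)))
      (fun b => Real.sqrt (δ (g b)))
    simpa only [Real.sq_sqrt (hγ _), Real.sq_sqrt (hδ _)] using this
  have h4 : Real.sqrt a * ∑ b ∈ S, β b ≤
      Real.sqrt M * ∑ b ∈ S, Real.sqrt (γ (f b)) * Real.sqrt (δ (g b)) := by
    rw [Finset.mul_sum, Finset.mul_sum]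
    apply Finset.sum_le_sum
    intro b hb
    have h5 : (Real.sqrt a * β b) ^ 2 ≤
        (Real.sqrt M * (Real.sqrt (γ (f b)) * Real.sqrt (δ (g b)))) ^ 2 := by
      rw [mul_pow, mul_pow, mul_pow, Real.sq_sqrt ha, Real.sq_sqrt hM0, Real.sq_sqrt (hγ _),
        Real.sq_sqrt (hδ _)]
      calc a * β b ^ 2 = β b * (a * β b) := by ring
        _ ≤ β b * (γ (f b) * δ (g b)) := mul_le_mul_of_nonneg_left (hc b hb) (hβ b)
        _ ≤ M * (γ (f b) * δ (g b)) :=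
            mul_le_mul_of_nonneg_right (hM b hb) (mul_nonneg (hγ _) (hδ _))
    exact (sq_le_sq₀ (mul_nonneg (Real.sqrt_nonneg _) (hβ b)) (by positivity)).1 h5
  have h6 : 0 ≤ Real.sqrt a * ∑ b ∈ S, β b :=
    mul_nonneg (Real.sqrt_nonneg _) (Finset.sum_nonneg fun b _ => hβ b)
  have h7 := pow_le_pow_left₀ h6 h4 2
  rw [mul_pow, mul_pow, Real.sq_sqrt ha, Real.sq_sqrt hM0] at h7
  refine h7.trans (mul_le_mul_of_nonneg_left (h3.trans ?_) hM0)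
  exact mul_le_mul h1 h2 (Finset.sum_nonneg fun b _ => hδ _) (Finset.sum_nonneg fun c _ => hγ c)

/-- Pairs with both operations cancellative on both sides. -/
theorem latin (S₁ : Finset A) (S₂ : Finset B) (S₃ : Finset C) (S₄ : Finset D)
    (φ : A → B → C) (ψ : A → B → D) (α : A → ℝ) (β : B → ℝ) (γ : C → ℝ) (δ : D → ℝ)
    (hα : ∀ a, 0 ≤ α a) (hβ : ∀ b, 0 ≤ β b) (hγ : ∀ c, 0 ≤ γ c) (hδ : ∀ d, 0 ≤ δ d)
    (hc : ∀ a b, α a * β b ≤ γ (φ a b) * δ (ψ a b))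
    (m3 : ∀ a ∈ S₁, ∀ b ∈ S₂, φ a b ∈ S₃) (m4 : ∀ a ∈ S₁, ∀ b ∈ S₂, ψ a b ∈ S₄)
    (i1 : ∀ a ∈ S₁, Set.InjOn (fun b => φ a b) S₂) (i2 : ∀ a ∈ S₁, Set.InjOn (fun b => ψ a b) S₂)
    (i3 : ∀ b ∈ S₂, Set.InjOn (fun a => φ a b) S₁)
    (i4 : ∀ b ∈ S₂, Set.InjOn (fun a => ψ a b) S₁) :
    (∑ a ∈ S₁, α a) * (∑ b ∈ S₂, β b) ≤ (∑ c ∈ S₃, γ c) * ∑ d ∈ S₄, δ d := by
  have hP : 0 ≤ (∑ c ∈ S₃, γ c) * ∑ d ∈ S₄, δ d :=
    mul_nonneg (Finset.sum_nonneg fun c _ => hγ c) (Finset.sum_nonneg fun d _ => hδ d)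
  rcases S₁.eq_empty_or_nonempty with h1 | h1
  · rw [h1]; simpa using hP
  rcases S₂.eq_empty_or_nonempty with h2 | h2
  · rw [h2]; simpa using hP
  obtain ⟨a0, ha0, hamax⟩ := Finset.exists_max_image S₁ α h1
  obtain ⟨b0, hb0, hbmax⟩ := Finset.exists_max_image S₂ β h2
  have e1 := half S₂ S₃ S₄ (fun b => φ a0 b) (fun b => ψ a0 b) β γ δ (α a0) (β b0) (hα a0) hβ hγ
    hδ (hβ b0) hbmax (fun b _ => hc a0 b) (i1 a0 ha0) (i2 a0 ha0) (m3 a0 ha0) (m4 a0 ha0)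
  have e2 := half S₁ S₃ S₄ (fun a => φ a b0) (fun a => ψ a b0) α γ δ (β b0) (α a0) (hβ b0) hα hγ
    hδ (hα a0) hamax (fun a _ => by rw [mul_comm]; exact hc a b0) (i3 b0 hb0) (i4 b0 hb0)
    (fun a ha => m3 a ha b0 hb0) (fun a ha => m4 a ha b0 hb0)
  set X := ∑ b ∈ S₂, β b with hX
  set Y := ∑ a ∈ S₁, α a with hY
  set P := (∑ c ∈ S₃, γ c) * ∑ d ∈ S₄, δ d with hPdef
  have hX0 : 0 ≤ X := Finset.sum_nonneg fun b _ => hβ b
  have hY0 : 0 ≤ Y := Finset.sum_nonneg fun a _ => hα a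
  rcases (hα a0).eq_or_lt with hz | hz
  · have : Y = 0 := by
      apply Finset.sum_eq_zero
      intro a ha
      exact le_antisymm (hz ▸ hamax a ha) (hα a)
    rw [this, zero_mul]; exact hP
  rcases (hβ b0).eq_or_lt with hw | hw
  · have : X = 0 := by
      apply Finset.sum_eq_zero
      intro b hb
      exact le_antisymm (hw ▸ hbmax b hb) (hβ b)
    rw [this, mul_zero]; exact hP
  have h3 : α a0 * β b0 * (Y * X) ^ 2 ≤ α a0 * β b0 * P ^ 2 := by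
    calc α a0 * β b0 * (Y * X) ^ 2 = (α a0 * X ^ 2) * (β b0 * Y ^ 2) := by ring
      _ ≤ (β b0 * P) * (α a0 * P) :=
          mul_le_mul e1 e2 (by positivity) (mul_nonneg (hβ b0) hP)
      _ = α a0 * β b0 * P ^ 2 := by ring
  have h4 := le_of_mul_le_mul_left h3 (mul_pos hz hw)
  exact (sq_le_sq₀ (mul_nonneg hY0 hX0) hP).1 h4

end

/-- The extension principle. -/
theorem exp_ext {A B C D A' B' C' D' : Type u} [Fintype A] [Fintype B] [Fintype C] [Fintype D]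
    [Fintype A'] [Fintype B'] [Fintype C'] [Fintype D'] [DecidableEq A'] [DecidableEq B']
    [DecidableEq C'] [DecidableEq D'] (φ : A → B → C) (ψ : A → B → D) (φ' : A' → B' → C')
    (ψ' : A' → B' → D') (p : A → A') (q : B → B') (r : C → C') (s : D → D')
    (hr : ∀ a b, r (φ a b) = φ' (p a) (q b)) (hs : ∀ a b, s (ψ a b) = ψ' (p a) (q b))
    (h' : Exp φ' ψ')
    (hfib : ∀ (a₀ : A) (b₀ : B) (α : A → ℝ) (β : B → ℝ) (γ : C → ℝ) (δ : D → ℝ),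
      (∀ a, 0 ≤ α a) → (∀ b, 0 ≤ β b) → (∀ c, 0 ≤ γ c) → (∀ d, 0 ≤ δ d) →
      (∀ a b, α a * β b ≤ γ (φ a b) * δ (ψ a b)) →
      (∑ a with p a = p a₀, α a) * (∑ b with q b = q b₀, β b) ≤
        (∑ c with r c = r (φ a₀ b₀), γ c) * ∑ d with s d = s (ψ a₀ b₀), δ d) :
    Exp φ ψ := by
  intro α β γ δ hα hβ hγ hδ hc
  have h := h' (fun x => ∑ a with p a = x, α a) (fun y => ∑ b with q b = y, β b)
    (fun z => ∑ c with r c = z, γ c) (fun w => ∑ d with s d = w, δ d)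
    (fun x => Finset.sum_nonneg fun a _ => hα a) (fun y => Finset.sum_nonneg fun b _ => hβ b)
    (fun z => Finset.sum_nonneg fun c _ => hγ c) (fun w => Finset.sum_nonneg fun d _ => hδ d) ?_
  · rw [Finset.sum_fiberwise, Finset.sum_fiberwise, Finset.sum_fiberwise,
      Finset.sum_fiberwise] at h
    exact h
  · intro x y
    show (∑ a with p a = x, α a) * (∑ b with q b = y, β b) ≤
      (∑ c with r c = φ' x y, γ c) * ∑ d with s d = ψ' x y, δ d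
    have hP : 0 ≤ (∑ c with r c = φ' x y, γ c) * ∑ d with s d = ψ' x y, δ d :=
      mul_nonneg (Finset.sum_nonneg fun c _ => hγ c) (Finset.sum_nonneg fun d _ => hδ d)
    by_cases hx : ∃ a₀, p a₀ = x
    · by_cases hy : ∃ b₀, q b₀ = y
      · obtain ⟨a₀, rfl⟩ := hx
        obtain ⟨b₀, rfl⟩ := hy
        have := hfib a₀ b₀ α β γ δ hα hβ hγ hδ hc
        rw [hr, hs] at this
        exact this
      · have : ∑ b with q b = y, β b = 0 := by
          rw [Finset.filter_false_of_mem, Finset.sum_empty]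
          intro b _ hb
          exact hy ⟨b, hb⟩
        rw [this, mul_zero]; exact hP
    · have : ∑ a with p a = x, α a = 0 := by
        rw [Finset.filter_false_of_mem, Finset.sum_empty]
        intro a _ ha
        exact hx ⟨a, ha⟩
      rw [this, zero_mul]; exact hP

end Pool.Agent.GXP
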