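import Pool.Agent.GXP.Exp

/-!
# M-expansive pairs of group homomorphisms: the induction (MP_53e9f9_co)
-/

set_option autoImplicit false

namespace Pool.Agent.GXP

open Finset

universe u

/-- The condition on subgroups. -/
def Cond {G₁ G₂ K₁ K₂ : Type u} [Group G₁] [Group G₂] [Group K₁] [Group K₂]
    (φ : G₁ × G₂ →* K₁) (ψ : G₁ × G₂ →* K₂) : Prop :=
  ∀ (A : Subgroup G₁) (B : Subgroup G₂), Nat.card A * Nat.card B ≤
    Nat.card ((A.prod B).map φ) * Nat.card ((A.prod B).map ψ)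

section
variable {G₁ G₂ K₁ K₂ : Type u} [Group G₁] [Group G₂] [Group K₁] [Group K₂]

theorem Cond.symm {φ : G₁ × G₂ →* K₁} {ψ : G₁ × G₂ →* K₂} (h : Cond φ ψ) : Cond ψ φ :=
  fun A B => by rw [mul_comm (Nat.card _) (Nat.card ((A.prod B).map φ))]; exact h A B

variable [Finite G₁] [Finite G₂] [Finite K₁] [Finite K₂]

theorem card_map_le_fst (φ : G₁ × G₂ →* K₁) (X : Subgroup G₁) (Y : Subgroup G₂)
    (h : ∀ b ∈ Y, ∃ t ∈ X, φ (t, b) = 1) : Nat.card ((X.prod Y).map φ) ≤ Nat.card X := by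
  have hm : ∀ x : X, φ ((x : G₁), 1) ∈ (X.prod Y).map φ := fun x =>
    ⟨((x : G₁), 1), ⟨x.2, Y.one_mem⟩, rfl⟩
  apply Nat.card_le_card_of_surjective (fun x : X => (⟨φ ((x : G₁), 1), hm x⟩ : (X.prod Y).map φ))
  rintro ⟨z, ⟨⟨a, b⟩, ⟨ha, hb⟩, rfl⟩⟩
  obtain ⟨t, ht, h1⟩ := h b hb
  refine ⟨⟨a * t⁻¹, X.mul_mem ha (X.inv_mem ht)⟩, ?_⟩
  apply Subtype.ext
  show φ (a * t⁻¹, 1) = φ (a, b)
  have : ((a * t⁻¹, 1) : G₁ × G₂) = (a, b) * (t, b)⁻¹ := by
    ext <;> simp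
  rw [this, map_mul, map_inv, h1, inv_one, mul_one]

theorem card_map_le_snd (φ : G₁ × G₂ →* K₁) (X : Subgroup G₁) (Y : Subgroup G₂)
    (h : ∀ a ∈ X, ∃ t ∈ Y, φ (a, t) = 1) : Nat.card ((X.prod Y).map φ) ≤ Nat.card Y := by
  have hm : ∀ y : Y, φ (1, (y : G₂)) ∈ (X.prod Y).map φ := fun y =>
    ⟨(1, (y : G₂)), ⟨X.one_mem, y.2⟩, rfl⟩
  apply Nat.card_le_card_of_surjective (fun y : Y => (⟨φ (1, (y : G₂)), hm y⟩ : (X.prod Y).map φ))
  rintro ⟨z, ⟨⟨a, b⟩, ⟨ha, hb⟩, rfl⟩⟩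
  obtain ⟨t, ht, h1⟩ := h a ha
  refine ⟨⟨t⁻¹ * b, Y.mul_mem (Y.inv_mem ht) hb⟩, ?_⟩
  apply Subtype.ext
  show φ (1, t⁻¹ * b) = φ (a, b)
  have : ((1, t⁻¹ * b) : G₁ × G₂) = (a, t)⁻¹ * (a, b) := by
    ext <;> simp
  rw [this, map_mul, map_inv, h1, inv_one, one_mul]

/-- The common kernel meets the first factor trivially. -/
theorem ker_fst {φ : G₁ × G₂ →* K₁} {ψ : G₁ × G₂ →* K₂} (h : Cond φ ψ) (a : G₁)
    (h1 : φ (a, 1) = 1) (h2 : ψ (a, 1) = 1) : a = 1 := by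
  set A : Subgroup G₁ := (φ.ker ⊓ ψ.ker).comap (MonoidHom.inl G₁ G₂) with hA
  have hmem : ∀ x, x ∈ A ↔ φ (x, 1) = 1 ∧ ψ (x, 1) = 1 := fun x => Iff.rfl
  have e1 : (A.prod ⊥).map φ = ⊥ := by
    rw [eq_bot_iff]
    rintro z ⟨⟨x, y⟩, ⟨hx, hy⟩, rfl⟩
    have hy' : y = 1 := Subgroup.mem_bot.1 hy
    subst hy'
    exact ((hmem x).1 hx).1
  have e2 : (A.prod ⊥).map ψ = ⊥ := by
    rw [eq_bot_iff]
    rintro z ⟨⟨x, y⟩, ⟨hx, hy⟩, rfl⟩
    have hy' : y = 1 := Subgroup.mem_bot.1 hy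
    subst hy'
    exact ((hmem x).1 hx).2
  have h3 := h A ⊥
  rw [e1, e2, Subgroup.card_bot, Subgroup.card_bot, Subgroup.card_bot, mul_one, mul_one] at h3
  have h4 : A = ⊥ := (Subgroup.card_le_one_iff_eq_bot _).1 h3
  have h5 : a ∈ A := (hmem a).2 ⟨h1, h2⟩
  rw [h4] at h5
  exact Subgroup.mem_bot.1 h5

theorem ker_snd {φ : G₁ × G₂ →* K₁} {ψ : G₁ × G₂ →* K₂} (h : Cond φ ψ) (b : G₂)
    (h1 : φ (1, b) = 1) (h2 : ψ (1, b) = 1) : b = 1 := by
  set B : Subgroup G₂ := (φ.ker ⊓ ψ.ker).comap (MonoidHom.inr G₁ G₂) with hB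
  have hmem : ∀ x, x ∈ B ↔ φ (1, x) = 1 ∧ ψ (1, x) = 1 := fun x => Iff.rfl
  have e1 : ((⊥ : Subgroup G₁).prod B).map φ = ⊥ := by
    rw [eq_bot_iff]
    rintro z ⟨⟨x, y⟩, ⟨hx, hy⟩, rfl⟩
    have hx' : x = 1 := Subgroup.mem_bot.1 hx
    subst hx'
    exact ((hmem y).1 hy).1
  have e2 : ((⊥ : Subgroup G₁).prod B).map ψ = ⊥ := by
    rw [eq_bot_iff]
    rintro z ⟨⟨x, y⟩, ⟨hx, hy⟩, rfl⟩
    have hx' : x = 1 := Subgroup.mem_bot.1 hx
    subst hx'
    exact ((hmem y).1 hy).2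
  have h3 := h ⊥ B
  rw [e1, e2, Subgroup.card_bot, Subgroup.card_bot, Subgroup.card_bot, one_mul, mul_one] at h3
  have h4 : B = ⊥ := (Subgroup.card_le_one_iff_eq_bot _).1 h3
  have h5 : b ∈ B := (hmem b).2 ⟨h1, h2⟩
  rw [h4] at h5
  exact Subgroup.mem_bot.1 h5

/-- The projections of the common kernel. -/
def D₁ (φ : G₁ × G₂ →* K₁) (ψ : G₁ × G₂ →* K₂) : Subgroup G₁ :=
  (φ.ker ⊓ ψ.ker).map (MonoidHom.fst G₁ G₂)

def D₂ (φ : G₁ × G₂ →* K₁) (ψ : G₁ × G₂ →* K₂) : Subgroup G₂ :=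
  (φ.ker ⊓ ψ.ker).map (MonoidHom.snd G₁ G₂)

omit [Finite G₁] [Finite G₂] [Finite K₁] [Finite K₂] in
theorem mem_D₁ (φ : G₁ × G₂ →* K₁) (ψ : G₁ × G₂ →* K₂) (a : G₁) :
    a ∈ D₁ φ ψ ↔ ∃ b, φ (a, b) = 1 ∧ ψ (a, b) = 1 := by
  constructor
  · rintro ⟨⟨x, y⟩, hxy, rfl⟩
    exact ⟨y, hxy⟩
  · rintro ⟨b, hb⟩
    exact ⟨(a, b), hb, rfl⟩

omit [Finite G₁] [Finite G₂] [Finite K₁] [Finite K₂] in
theorem mem_D₂ (φ : G₁ × G₂ →* K₁) (ψ : G₁ × G₂ →* K₂) (b : G₂) :
    b ∈ D₂ φ ψ ↔ ∃ a, φ (a, b) = 1 ∧ ψ (a, b) = 1 := by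
  constructor
  · rintro ⟨⟨x, y⟩, hxy, rfl⟩
    exact ⟨x, hxy⟩
  · rintro ⟨a, ha⟩
    exact ⟨(a, b), ha, rfl⟩

omit [Finite G₁] [Finite G₂] [Finite K₁] [Finite K₂] in
theorem map_split (φ : G₁ × G₂ →* K₁) (a : G₁) (b : G₂) : φ (a, b) = φ (a, 1) * φ (1, b) := by
  rw [← map_mul]
  congr 1
  ext <;> simp

/-- `φ(·, 1)` is injective on `D₁`. -/
theorem inj_fst {φ : G₁ × G₂ →* K₁} {ψ : G₁ × G₂ →* K₂} (h : Cond φ ψ) (d : G₁)
    (hd : d ∈ D₁ φ ψ) (h1 : φ (d, 1) = 1) : d = 1 := by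
  set E₁ : Subgroup G₁ := D₁ φ ψ ⊓ φ.ker.comap (MonoidHom.inl G₁ G₂) with hE₁
  set E₂ : Subgroup G₂ := D₂ φ ψ ⊓ φ.ker.comap (MonoidHom.inr G₁ G₂) with hE₂
  have m1 : ∀ x, x ∈ E₁ ↔ x ∈ D₁ φ ψ ∧ φ (x, 1) = 1 := fun x => Iff.rfl
  have m2 : ∀ x, x ∈ E₂ ↔ x ∈ D₂ φ ψ ∧ φ (1, x) = 1 := fun x => Iff.rfl
  have e1 : (E₁.prod E₂).map φ = ⊥ := by
    rw [eq_bot_iff]
    rintro z ⟨⟨x, y⟩, ⟨hx, hy⟩, rfl⟩
    show φ (x, y) = 1
    rw [map_split, ((m1 x).1 hx).2, ((m2 y).1 hy).2, one_mul]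
  have e2 : Nat.card ((E₁.prod E₂).map ψ) ≤ Nat.card E₁ := by
    apply card_map_le_fst
    intro b hb
    obtain ⟨hb1, hb2⟩ := (m2 b).1 hb
    obtain ⟨t, ht1, ht2⟩ := (mem_D₂ φ ψ b).1 hb1
    refine ⟨t, (m1 t).2 ⟨(mem_D₁ φ ψ t).2 ⟨b, ht1, ht2⟩, ?_⟩, ht2⟩
    rw [map_split, hb2, mul_one] at ht1
    exact ht1
  have h3 := h E₁ E₂
  rw [e1, Subgroup.card_bot, one_mul] at h3
  have h4 : Nat.card E₁ * Nat.card E₂ ≤ Nat.card E₁ * 1 := by
    rw [mul_one]; exact h3.trans e2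
  have h5 : Nat.card E₂ ≤ 1 := Nat.le_of_mul_le_mul_left h4 Nat.card_pos
  have h6 : E₂ = ⊥ := (Subgroup.card_le_one_iff_eq_bot _).1 h5
  obtain ⟨b, hb1, hb2⟩ := (mem_D₁ φ ψ d).1 hd
  have hb : b ∈ E₂ := by
    refine (m2 b).2 ⟨(mem_D₂ φ ψ b).2 ⟨d, hb1, hb2⟩, ?_⟩
    rw [map_split, h1, one_mul] at hb1
    exact hb1
  rw [h6] at hb
  have hb' : b = 1 := Subgroup.mem_bot.1 hb
  subst hb'
  exact ker_fst h d hb1 hb2

theorem inj_snd {φ : G₁ × G₂ →* K₁} {ψ : G₁ × G₂ →* K₂} (h : Cond φ ψ) (d : G₂)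
    (hd : d ∈ D₂ φ ψ) (h1 : φ (1, d) = 1) : d = 1 := by
  obtain ⟨a, ha1, ha2⟩ := (mem_D₂ φ ψ d).1 hd
  have h2 : φ (a, 1) = 1 := by
    rw [map_split, h1, mul_one] at ha1
    exact ha1
  have ha : a = 1 := inj_fst h a ((mem_D₁ φ ψ a).2 ⟨d, ha1, ha2⟩) h2
  subst ha
  exact ker_snd h d ha1 ha2

omit [Finite G₁] [Finite G₂] [Finite K₁] [Finite K₂] in
theorem D₁_comm (φ : G₁ × G₂ →* K₁) (ψ : G₁ × G₂ →* K₂) : D₁ ψ φ = D₁ φ ψ := by
  unfold D₁; rw [inf_comm]

omit [Finite G₁] [Finite G₂] [Finite K₁] [Finite K₂] in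
theorem D₂_comm (φ : G₁ × G₂ →* K₁) (ψ : G₁ × G₂ →* K₂) : D₂ ψ φ = D₂ φ ψ := by
  unfold D₂; rw [inf_comm]

end

theorem card_comap {G H : Type u} [Group G] [Group H] [Finite G] (f : G →* H)
    (hf : Function.Surjective f) (B : Subgroup H) :
    Nat.card (B.comap f) = Nat.card B * Nat.card f.ker := by
  have : Finite H := Finite.of_surjective f hf
  have h1 : Nat.card (B.comap f) * (B.comap f).index = Nat.card G := Subgroup.card_mul_index _
  have h2 : Nat.card f.ker * f.ker.index = Nat.card G := Subgroup.card_mul_index _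
  have h3 : f.ker.index = Nat.card H := by
    rw [Subgroup.index_ker, MonoidHom.range_eq_top.2 hf, Subgroup.card_top]
  have h4 : Nat.card B * B.index = Nat.card H := Subgroup.card_mul_index _
  rw [Subgroup.index_comap_of_surjective B hf] at h1
  rw [h3, ← h4, ← h1] at h2
  have h5 : 0 < B.index := Nat.pos_of_ne_zero Subgroup.index_ne_zero_of_finite
  have h6 : Nat.card f.ker * Nat.card B * B.index = Nat.card (B.comap f) * B.index := by
    rw [mul_assoc]; exact h2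
  have := Nat.eq_of_mul_eq_mul_right h5 h6
  rw [← this, mul_comm]

theorem exists_hom {G H L : Type u} [Group G] [Group H] [Group L] (f : G →* H)
    (hf : Function.Surjective f) (g : G →* L) (hk : f.ker ≤ g.ker) :
    ∃ g' : H →* L, ∀ x, g' (f x) = g x :=
  ⟨f.liftOfSurjective hf ⟨g, hk⟩, fun x =>
    f.liftOfRightInverse_comp_apply _ (Function.rightInverse_surjInv hf) ⟨g, hk⟩ x⟩

theorem main_exp : ∀ (n : ℕ) (G₁ G₂ K₁ K₂ : Type u) [Group G₁] [Group G₂] [Group K₁] [Group K₂]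
    [Fintype G₁] [Fintype G₂] [Fintype K₁] [Fintype K₂] (φ : G₁ × G₂ →* K₁) (ψ : G₁ × G₂ →* K₂),
    Function.Surjective φ → Function.Surjective ψ → Nat.card G₁ ≤ n → Cond φ ψ →
    Exp (fun a b => φ (a, b)) (fun a b => ψ (a, b)) := by
  classical
  intro n
  induction n with
  | zero =>
    intro G₁ G₂ K₁ K₂ _ _ _ _ _ _ _ _ φ ψ _ _ hn _
    exact absurd hn (by have := Nat.card_pos (α := G₁); omega)
  | succ n ih =>
    intro G₁ G₂ K₁ K₂ _ _ _ _ _ _ _ _ φ ψ hφ hψ hn h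
    by_cases hK : φ.ker ⊓ ψ.ker = ⊥
    · apply exp_of_inj
      intro x y hxy
      have h1 : φ x = φ y := (Prod.ext_iff.1 hxy).1
      have h2 : ψ x = ψ y := (Prod.ext_iff.1 hxy).2
      have h3 : x * y⁻¹ ∈ φ.ker ⊓ ψ.ker := by
        refine ⟨?_, ?_⟩
        · show φ (x * y⁻¹) = 1
          rw [map_mul, map_inv, h1, mul_inv_cancel]
        · show ψ (x * y⁻¹) = 1
          rw [map_mul, map_inv, h2, mul_inv_cancel]
      rw [hK] at h3
      exact mul_inv_eq_one.1 (Subgroup.mem_bot.1 h3)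
    · -- the projections of the common kernel
      have hD1n : (D₁ φ ψ).Normal :=
        Subgroup.Normal.map inferInstance _ Prod.fst_surjective
      have hD2n : (D₂ φ ψ).Normal :=
        Subgroup.Normal.map inferInstance _ Prod.snd_surjective
      have hprod : ((D₁ φ ψ).prod (D₂ φ ψ)).Normal := Subgroup.prod_normal _ _
      let N₁ : Subgroup K₁ := ((D₁ φ ψ).prod (D₂ φ ψ)).map φ
      let N₂ : Subgroup K₂ := ((D₁ φ ψ).prod (D₂ φ ψ)).map ψ
      have hN1n : N₁.Normal := Subgroup.Normal.map hprod _ hφ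
      have hN2n : N₂.Normal := Subgroup.Normal.map hprod _ hψ
      -- nontrivial
      have hD1 : D₁ φ ψ ≠ ⊥ := by
        intro e
        apply hK
        rw [eq_bot_iff]
        rintro ⟨a, b⟩ ⟨h1, h2⟩
        have h1' : φ (a, b) = 1 := h1
        have h2' : ψ (a, b) = 1 := h2
        have ha : a ∈ D₁ φ ψ := (mem_D₁ φ ψ a).2 ⟨b, h1', h2'⟩
        rw [e] at ha
        have ha' : a = 1 := Subgroup.mem_bot.1 ha
        subst ha'
        have hb' : b = 1 := ker_snd h b h1' h2'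
        subst hb'
        exact Subgroup.mem_bot.2 rfl
      -- quotients
      let p : G₁ →* G₁ ⧸ D₁ φ ψ := QuotientGroup.mk' _
      let q : G₂ →* G₂ ⧸ D₂ φ ψ := QuotientGroup.mk' _
      let r : K₁ →* K₁ ⧸ N₁ := QuotientGroup.mk' _
      let s : K₂ →* K₂ ⧸ N₂ := QuotientGroup.mk' _
      have hp : Function.Surjective p := QuotientGroup.mk'_surjective _
      have hq : Function.Surjective q := QuotientGroup.mk'_surjective _
      have hr : Function.Surjective r := QuotientGroup.mk'_surjective _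
      have hs : Function.Surjective s := QuotientGroup.mk'_surjective _
      have kp : p.ker = D₁ φ ψ := QuotientGroup.ker_mk' _
      have kq : q.ker = D₂ φ ψ := QuotientGroup.ker_mk' _
      have kr : r.ker = N₁ := QuotientGroup.ker_mk' _
      have ks : s.ker = N₂ := QuotientGroup.ker_mk' _
      let pq : G₁ × G₂ →* (G₁ ⧸ D₁ φ ψ) × (G₂ ⧸ D₂ φ ψ) := p.prodMap q
      have hpq : Function.Surjective pq := Function.Surjective.prodMap hp hq
      have kpq : ∀ x : G₁ × G₂, pq x = 1 → x ∈ (D₁ φ ψ).prod (D₂ φ ψ) := by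
        rintro ⟨a, b⟩ hx
        have h1 : p a = 1 := (Prod.ext_iff.1 hx).1
        have h2 : q b = 1 := (Prod.ext_iff.1 hx).2
        refine ⟨?_, ?_⟩
        · show a ∈ D₁ φ ψ
          rw [← kp]; exact h1
        · show b ∈ D₂ φ ψ
          rw [← kq]; exact h2
      obtain ⟨φ', hφ'⟩ := exists_hom pq hpq (r.comp φ) (by
        intro x hx
        have h1 := kpq x hx
        show r (φ x) = 1
        have h2 : φ x ∈ r.ker := by rw [kr]; exact ⟨x, h1, rfl⟩
        exact h2)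
      obtain ⟨ψ', hψ'⟩ := exists_hom pq hpq (s.comp ψ) (by
        intro x hx
        have h1 := kpq x hx
        show s (ψ x) = 1
        have h2 : ψ x ∈ s.ker := by rw [ks]; exact ⟨x, h1, rfl⟩
        exact h2)
      have sφ' : Function.Surjective φ' := by
        intro z
        obtain ⟨c, rfl⟩ := hr z
        obtain ⟨x, rfl⟩ := hφ c
        exact ⟨pq x, hφ' x⟩
      have sψ' : Function.Surjective ψ' := by
        intro z
        obtain ⟨c, rfl⟩ := hs z
        obtain ⟨x, rfl⟩ := hψ c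
        exact ⟨pq x, hψ' x⟩
      -- cardinalities
      have c1 : Nat.card N₁ ≤ Nat.card (D₁ φ ψ) := by
        apply card_map_le_fst
        intro b hb
        obtain ⟨a, ha1, ha2⟩ := (mem_D₂ φ ψ b).1 hb
        exact ⟨a, (mem_D₁ φ ψ a).2 ⟨b, ha1, ha2⟩, ha1⟩
      have c2 : Nat.card N₂ ≤ Nat.card (D₂ φ ψ) := by
        apply card_map_le_snd
        intro a ha
        obtain ⟨b, hb1, hb2⟩ := (mem_D₁ φ ψ a).1 ha
        exact ⟨b, (mem_D₂ φ ψ b).2 ⟨a, hb1, hb2⟩, hb2⟩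
      have c3 : Nat.card (D₁ φ ψ) * Nat.card (D₂ φ ψ) = Nat.card N₁ * Nat.card N₂ :=
        le_antisymm (h _ _) (Nat.mul_le_mul c1 c2)
      have cond' : Cond φ' ψ' := by
        intro A' B'
        have hA := card_comap p hp A'
        have hB := card_comap q hq B'
        rw [kp] at hA
        rw [kq] at hB
        have e1 : ((A'.comap p).prod (B'.comap q)).map φ
            = (((A'.prod B').map φ').comap r) := by
          ext z
          constructor
          · rintro ⟨⟨a, b⟩, ⟨ha, hb⟩, rfl⟩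
            exact ⟨pq (a, b), ⟨ha, hb⟩, hφ' (a, b)⟩
          · rintro ⟨w, hw, hz⟩
            obtain ⟨⟨a, b⟩, rfl⟩ := hpq w
            have h1 : r (φ (a, b)) = r z := (hφ' (a, b)).symm.trans hz
            have h2 : (φ (a, b))⁻¹ * z ∈ N₁ := by
              rw [← kr]
              show r ((φ (a, b))⁻¹ * z) = 1
              rw [map_mul, map_inv, h1, inv_mul_cancel]
            obtain ⟨⟨c, d⟩, ⟨hc, hd⟩, hcd⟩ := h2
            refine ⟨(a * c, b * d), ⟨?_, ?_⟩, ?_⟩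
            · show p (a * c) ∈ A'
              rw [map_mul, show p c = 1 from (by
                have : c ∈ p.ker := by rw [kp]; exact hc
                exact this), mul_one]
              exact hw.1
            · show q (b * d) ∈ B'
              rw [map_mul, show q d = 1 from (by
                have : d ∈ q.ker := by rw [kq]; exact hd
                exact this), mul_one]
              exact hw.2
            · have : ((a * c, b * d) : G₁ × G₂) = (a, b) * (c, d) := rfl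
              rw [this, map_mul, hcd]
              group
        have e2 : ((A'.comap p).prod (B'.comap q)).map ψ
            = (((A'.prod B').map ψ').comap s) := by
          ext z
          constructor
          · rintro ⟨⟨a, b⟩, ⟨ha, hb⟩, rfl⟩
            exact ⟨pq (a, b), ⟨ha, hb⟩, hψ' (a, b)⟩
          · rintro ⟨w, hw, hz⟩
            obtain ⟨⟨a, b⟩, rfl⟩ := hpq w
            have h1 : s (ψ (a, b)) = s z := (hψ' (a, b)).symm.trans hz
            have h2 : (ψ (a, b))⁻¹ * z ∈ N₂ := by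
              rw [← ks]
              show s ((ψ (a, b))⁻¹ * z) = 1
              rw [map_mul, map_inv, h1, inv_mul_cancel]
            obtain ⟨⟨c, d⟩, ⟨hc, hd⟩, hcd⟩ := h2
            refine ⟨(a * c, b * d), ⟨?_, ?_⟩, ?_⟩
            · show p (a * c) ∈ A'
              rw [map_mul, show p c = 1 from (by
                have : c ∈ p.ker := by rw [kp]; exact hc
                exact this), mul_one]
              exact hw.1
            · show q (b * d) ∈ B'
              rw [map_mul, show q d = 1 from (by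
                have : d ∈ q.ker := by rw [kq]; exact hd
                exact this), mul_one]
              exact hw.2
            · have : ((a * c, b * d) : G₁ × G₂) = (a, b) * (c, d) := rfl
              rw [this, map_mul, hcd]
              group
        have hC := card_comap r hr ((A'.prod B').map φ')
        have hD := card_comap s hs ((A'.prod B').map ψ')
        rw [kr] at hC
        rw [ks] at hD
        have h1 := h (A'.comap p) (B'.comap q)
        rw [e1, e2, hA, hB, hC, hD] at h1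
        have h2 : Nat.card A' * Nat.card B' * (Nat.card (D₁ φ ψ) * Nat.card (D₂ φ ψ)) ≤
            Nat.card ((A'.prod B').map φ') * Nat.card ((A'.prod B').map ψ') *
              (Nat.card (D₁ φ ψ) * Nat.card (D₂ φ ψ)) := by
          conv_rhs => rw [c3]
          calc Nat.card A' * Nat.card B' * (Nat.card (D₁ φ ψ) * Nat.card (D₂ φ ψ))
              = Nat.card A' * Nat.card (D₁ φ ψ) * (Nat.card B' * Nat.card (D₂ φ ψ)) := by ring
            _ ≤ _ := h1
            _ = _ := by ring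
        exact Nat.le_of_mul_le_mul_right h2 (Nat.mul_pos Nat.card_pos Nat.card_pos)
      have hcard : Nat.card (G₁ ⧸ D₁ φ ψ) ≤ n := by
        have h1 : Nat.card G₁ = Nat.card (G₁ ⧸ D₁ φ ψ) * Nat.card (D₁ φ ψ) :=
          Subgroup.card_eq_card_quotient_mul_card_subgroup _
        have h2 : 1 < Nat.card (D₁ φ ψ) := by
          rw [Subgroup.one_lt_card_iff_ne_bot]
          exact hD1
        have h3 : 0 < Nat.card (G₁ ⧸ D₁ φ ψ) := Nat.card_pos
        have h4 : Nat.card (G₁ ⧸ D₁ φ ψ) * 2 ≤ Nat.card (G₁ ⧸ D₁ φ ψ) * Nat.card (D₁ φ ψ) :=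
          Nat.mul_le_mul_left _ h2
        omega
      have hexp := ih (G₁ ⧸ D₁ φ ψ) (G₂ ⧸ D₂ φ ψ) (K₁ ⧸ N₁) (K₂ ⧸ N₂) φ' ψ' sφ' sψ' hcard cond'
      refine exp_ext (fun a b => φ (a, b)) (fun a b => ψ (a, b)) (fun a b => φ' (a, b))
        (fun a b => ψ' (a, b)) p q r s (fun a b => (hφ' (a, b)).symm)
        (fun a b => (hψ' (a, b)).symm) hexp ?_
      intro a₀ b₀ α β γ δ hα hβ hγ hδ hc
      -- differences lie in the kernels
      have dp : ∀ a a', p a = p a₀ → p a' = p a₀ → a⁻¹ * a' ∈ D₁ φ ψ := by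
        intro a a' h1 h2
        rw [← kp]
        show p (a⁻¹ * a') = 1
        rw [map_mul, map_inv, h1, h2, inv_mul_cancel]
      have dq : ∀ b b', q b = q b₀ → q b' = q b₀ → b⁻¹ * b' ∈ D₂ φ ψ := by
        intro b b' h1 h2
        rw [← kq]
        show q (b⁻¹ * b') = 1
        rw [map_mul, map_inv, h1, h2, inv_mul_cancel]
      have hsy : Cond ψ φ := h.symm
      apply latin _ _ _ _ (fun a b => φ (a, b)) (fun a b => ψ (a, b)) α β γ δ hα hβ hγ hδ hc
      · intro a ha b hb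
        rw [mem_filter] at ha hb ⊢
        refine ⟨mem_univ _, ?_⟩
        show r (φ (a, b)) = r (φ (a₀, b₀))
        rw [← show φ' (pq (a, b)) = r (φ (a, b)) from hφ' (a, b),
          ← show φ' (pq (a₀, b₀)) = r (φ (a₀, b₀)) from hφ' (a₀, b₀)]
        congr 1
        exact Prod.ext ha.2 hb.2
      · intro a ha b hb
        rw [mem_filter] at ha hb ⊢
        refine ⟨mem_univ _, ?_⟩
        show s (ψ (a, b)) = s (ψ (a₀, b₀))
        rw [← show ψ' (pq (a, b)) = s (ψ (a, b)) from hψ' (a, b),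
          ← show ψ' (pq (a₀, b₀)) = s (ψ (a₀, b₀)) from hψ' (a₀, b₀)]
        congr 1
        exact Prod.ext ha.2 hb.2
      · intro a ha b hb b' hb' e
        have hb1 := (mem_filter.1 hb).2
        have hb2 := (mem_filter.1 hb').2
        have e' : φ (a, b) = φ (a, b') := e
        have h1 : φ (1, b⁻¹ * b') = 1 := by
          have : ((1, b⁻¹ * b') : G₁ × G₂) = (a, b)⁻¹ * (a, b') := by ext <;> simp
          rw [this, map_mul, map_inv, e', inv_mul_cancel]
        exact inv_mul_eq_one.1 (inj_snd h _ (dq b b' hb1 hb2) h1)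
      · intro a ha b hb b' hb' e
        have hb1 := (mem_filter.1 hb).2
        have hb2 := (mem_filter.1 hb').2
        have e' : ψ (a, b) = ψ (a, b') := e
        have h1 : ψ (1, b⁻¹ * b') = 1 := by
          have : ((1, b⁻¹ * b') : G₁ × G₂) = (a, b)⁻¹ * (a, b') := by ext <;> simp
          rw [this, map_mul, map_inv, e', inv_mul_cancel]
        exact inv_mul_eq_one.1 (inj_snd hsy _ ((D₂_comm φ ψ).symm ▸ dq b b' hb1 hb2) h1)
      · intro b hb a ha a' ha' e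
        have ha1 := (mem_filter.1 ha).2
        have ha2 := (mem_filter.1 ha').2
        have e' : φ (a, b) = φ (a', b) := e
        have h1 : φ (a⁻¹ * a', 1) = 1 := by
          have : ((a⁻¹ * a', 1) : G₁ × G₂) = (a, b)⁻¹ * (a', b) := by ext <;> simp
          rw [this, map_mul, map_inv, e', inv_mul_cancel]
        exact inv_mul_eq_one.1 (inj_fst h _ (dp a a' ha1 ha2) h1)
      · intro b hb a ha a' ha' e
        have ha1 := (mem_filter.1 ha).2
        have ha2 := (mem_filter.1 ha').2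
        have e' : ψ (a, b) = ψ (a', b) := e
        have h1 : ψ (a⁻¹ * a', 1) = 1 := by
          have : ((a⁻¹ * a', 1) : G₁ × G₂) = (a, b)⁻¹ * (a', b) := by ext <;> simp
          rw [this, map_mul, map_inv, e', inv_mul_cancel]
        exact inv_mul_eq_one.1 (inj_fst hsy _ ((D₁_comm φ ψ).symm ▸ dp a a' ha1 ha2) h1)

end Pool.Agent.GXP
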