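import Pool.Agent.GXP.Exp

/-!
# M-expansive pairs: a criterion by two partitions (MP_53e9f9_co)
-/

set_option autoImplicit false

namespace Pool.Agent.GXP

open Finset

universe u

section
variable {A B C A' B' : Type u} [Fintype A] [Fintype B] [Fintype C] [Fintype A'] [Fintype B']
  [DecidableEq C] [DecidableEq A'] [DecidableEq B']

omit [Fintype C] [Fintype A'] [Fintype B'] in
theorem key_one (φ : A → B → C) (p : A → A') (q : B → B')
    (h1 : ∀ a b b', q b = q b' → φ a b = φ a b' → b = b')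
    (h2 : ∀ a a' b b', q b = q b' → φ a b = φ a' b' → p a = p a')
    (α : A → ℝ) (hα : ∀ a, 0 ≤ α a) (c : C) (y : B') :
    ∑ a, ∑ b with q b = y, (if φ a b = c then α a / (∑ a' with p a' = p a, α a') else 0) ≤ 1 := by
  classical
  have hd : ∀ a, 0 ≤ α a / (∑ a' with p a' = p a, α a') := fun a =>
    div_nonneg (hα a) (Finset.sum_nonneg fun a' _ => hα a')
  by_cases hex : ∃ a b, q b = y ∧ φ a b = c
  · obtain ⟨a0, b0, hb0, hc0⟩ := hex
    have step : ∀ a, ∑ b with q b = y,
        (if φ a b = c then α a / (∑ a' with p a' = p a, α a') else 0) ≤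
        if p a = p a0 then α a / (∑ a' with p a' = p a0, α a') else 0 := by
      intro a
      by_cases hb : ∃ b, q b = y ∧ φ a b = c
      · obtain ⟨b, hb1, hb2⟩ := hb
        have hp : p a = p a0 := h2 a a0 b b0 (hb1.trans hb0.symm) (hb2.trans hc0.symm)
        rw [if_pos hp, Finset.sum_eq_single_of_mem b (by simp [hb1])]
        · rw [if_pos hb2, hp]
        · intro b' hb' hne
          rw [if_neg]
          intro e
          exact hne (h1 a b' b ((mem_filter.1 hb').2.trans hb1.symm) (e.trans hb2.symm))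
      · rw [Finset.sum_eq_zero]
        · split_ifs with hp
          · exact div_nonneg (hα a) (Finset.sum_nonneg fun a' _ => hα a')
          · exact le_rfl
        · intro b hb'
          rw [if_neg]
          intro e
          exact hb ⟨b, (mem_filter.1 hb').2, e⟩
    refine (Finset.sum_le_sum fun a _ => step a).trans ?_
    rw [← Finset.sum_filter, ← Finset.sum_div]
    exact div_self_le_one _
  · rw [Finset.sum_eq_zero]
    · exact zero_le_one
    · intro a _
      rw [Finset.sum_eq_zero]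
      intro b hb
      rw [if_neg]
      intro e
      exact hex ⟨a, b, (mem_filter.1 hb).2, e⟩

theorem interchange (W : A → ℝ) (D : B' → ℝ) (γ : C → ℝ) (φ : A → B → C) (q : B → B') :
    ∑ a, ∑ b, W a * D (q b) * γ (φ a b) =
      ∑ c, γ c * ∑ y, D y * ∑ a, ∑ b with q b = y, (if φ a b = c then W a else 0) := by
  classical
  have h1 : ∀ c, (∑ y, D y * ∑ a, ∑ b with q b = y, (if φ a b = c then W a else 0)) =
      ∑ a, ∑ b, D (q b) * (if φ a b = c then W a else 0) := by
    intro c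
    simp only [Finset.mul_sum]
    rw [Finset.sum_comm]
    refine Finset.sum_congr rfl fun a _ => ?_
    rw [← Finset.sum_fiberwise univ q (fun b => D (q b) * (if φ a b = c then W a else 0))]
    refine Finset.sum_congr rfl fun y _ => Finset.sum_congr rfl fun b hb => ?_
    rw [(mem_filter.1 hb).2]
  rw [Finset.sum_congr rfl fun c _ => congrArg (γ c * ·) (h1 c)]
  simp only [Finset.mul_sum]
  symm
  rw [Finset.sum_comm]
  refine Finset.sum_congr rfl fun a _ => ?_
  rw [Finset.sum_comm]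
  refine Finset.sum_congr rfl fun b _ => ?_
  rw [Finset.sum_eq_single (φ a b)]
  · rw [if_pos rfl]; ring
  · intro c _ hc
    rw [if_neg (Ne.symm hc), mul_zero, mul_zero]
  · intro h
    exact absurd (mem_univ _) h

omit [Fintype A'] in
theorem half_two (φ : A → B → C) (p : A → A') (q : B → B')
    (h1 : ∀ a b b', q b = q b' → φ a b = φ a b' → b = b')
    (h2 : ∀ a a' b b', q b = q b' → φ a b = φ a' b' → p a = p a')
    (α : A → ℝ) (β : B → ℝ) (γ : C → ℝ) (hα : ∀ a, 0 ≤ α a) (hβ : ∀ b, 0 ≤ β b)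
    (hγ : ∀ c, 0 ≤ γ c) :
    ∑ a, ∑ b, α a / (∑ a' with p a' = p a, α a') * (∑ b' with q b' = q b, β b') * γ (φ a b) ≤
      (∑ c, γ c) * ∑ b, β b := by
  classical
  calc ∑ a, ∑ b, α a / (∑ a' with p a' = p a, α a') * (∑ b' with q b' = q b, β b') * γ (φ a b)
      = ∑ c, γ c * ∑ y, (∑ b' with q b' = y, β b') *
          ∑ a, ∑ b with q b = y,
            (if φ a b = c then α a / (∑ a' with p a' = p a, α a') else 0) :=
        interchange (fun a => α a / (∑ a' with p a' = p a, α a'))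
          (fun y => ∑ b' with q b' = y, β b') γ φ q
    _ ≤ ∑ c, γ c * ∑ y, (∑ b' with q b' = y, β b') * 1 := by
        refine Finset.sum_le_sum fun c _ => mul_le_mul_of_nonneg_left ?_ (hγ c)
        refine Finset.sum_le_sum fun y _ => mul_le_mul_of_nonneg_left ?_ ?_
        · exact key_one φ p q h1 h2 α hα c y
        · exact Finset.sum_nonneg fun b _ => hβ b
    _ = (∑ c, γ c) * ∑ b, β b := by
        rw [← Finset.sum_mul]
        congr 1
        simp only [mul_one]
        rw [Finset.sum_fiberwise]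

end

section
variable {A B C D A' B' : Type u} [Fintype A] [Fintype B] [Fintype C] [Fintype D] [Fintype A']
  [Fintype B'] [DecidableEq C] [DecidableEq D] [DecidableEq A'] [DecidableEq B']

omit [Fintype C] [Fintype D] [Fintype A'] [Fintype B'] [DecidableEq C] [DecidableEq D] in
theorem point_two (φ : A → B → C) (ψ : A → B → D) (p : A → A') (q : B → B')
    (α : A → ℝ) (β : B → ℝ) (γ : C → ℝ) (δ : D → ℝ) (hα : ∀ a, 0 ≤ α a) (hβ : ∀ b, 0 ≤ β b)
    (hc : ∀ a b, α a * β b ≤ γ (φ a b) * δ (ψ a b))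
    (a : A) (b : B) : (α a * β b) ^ 2 ≤
      (α a / (∑ a' with p a' = p a, α a') * (∑ b' with q b' = q b, β b') * γ (φ a b)) *
      (β b / (∑ b' with q b' = q b, β b') * (∑ a' with p a' = p a, α a') * δ (ψ a b)) := by
  classical
  have ha := hα a
  have hb := hβ b
  have hsα : α a ≤ ∑ a' with p a' = p a, α a' :=
    Finset.single_le_sum (f := α) (fun i _ => hα i) (by simp)
  have hsβ : β b ≤ ∑ b' with q b' = q b, β b' :=
    Finset.single_le_sum (f := β) (fun i _ => hβ i) (by simp)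
  set X := ∑ a' with p a' = p a, α a' with hX
  set Y := ∑ b' with q b' = q b, β b' with hY
  rcases ha.eq_or_lt with ha0 | ha0
  · rw [← ha0]; simp
  rcases hb.eq_or_lt with hb0 | hb0
  · rw [← hb0]; simp
  have hXp : 0 < X := ha0.trans_le hsα
  have hYp : 0 < Y := hb0.trans_le hsβ
  have e : (α a / X * Y * γ (φ a b)) * (β b / Y * X * δ (ψ a b)) =
      (α a * β b) * (γ (φ a b) * δ (ψ a b)) := by
    field_simp
  rw [e, sq]
  exact mul_le_mul_of_nonneg_left (hc a b) (mul_nonneg ha hb)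

/-- The criterion by two partitions. -/
theorem exp_two (φ : A → B → C) (ψ : A → B → D) (p : A → A') (q : B → B')
    (h1 : ∀ a b b', q b = q b' → φ a b = φ a b' → b = b')
    (h2 : ∀ a a' b b', q b = q b' → φ a b = φ a' b' → p a = p a')
    (h3 : ∀ a a' b, p a = p a' → ψ a b = ψ a' b → a = a')
    (h4 : ∀ a a' b b', p a = p a' → ψ a b = ψ a' b' → q b = q b') : Exp φ ψ := by
  classical
  intro α β γ δ hα hβ hγ hδ hc
  set F : A → B → ℝ := fun a b =>
    α a / (∑ a' with p a' = p a, α a') * (∑ b' with q b' = q b, β b') * γ (φ a b) with hF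
  set G : A → B → ℝ := fun a b =>
    β b / (∑ b' with q b' = q b, β b') * (∑ a' with p a' = p a, α a') * δ (ψ a b) with hG
  have hsa : ∀ a, 0 ≤ ∑ a' with p a' = p a, α a' := fun a => Finset.sum_nonneg fun a' _ => hα a'
  have hsb : ∀ b, 0 ≤ ∑ b' with q b' = q b, β b' := fun b => Finset.sum_nonneg fun b' _ => hβ b'
  have hF0 : ∀ a b, 0 ≤ F a b := fun a b =>
    mul_nonneg (mul_nonneg (div_nonneg (hα a) (hsa a)) (hsb b)) (hγ _)
  have hG0 : ∀ a b, 0 ≤ G a b := fun a b =>
    mul_nonneg (mul_nonneg (div_nonneg (hβ b) (hsb b)) (hsa a)) (hδ _)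
  have kF : ∑ a, ∑ b, F a b ≤ (∑ c, γ c) * ∑ b, β b := half_two φ p q h1 h2 α β γ hα hβ hγ
  have kG : ∑ b, ∑ a, G a b ≤ (∑ d, δ d) * ∑ a, α a :=
    half_two (fun b a => ψ a b) q p (fun b a a' => h3 a a' b)
      (fun b b' a a' => h4 a a' b b') β α δ hβ hα hδ
  rw [Finset.sum_comm] at kG
  have cs : ((∑ a, α a) * ∑ b, β b) ^ 2 ≤ (∑ a, ∑ b, F a b) * ∑ a, ∑ b, G a b := by
    have c1 := Finset.sum_mul_sq_le_sq_mul_sq (univ : Finset (A × B))
      (fun x => Real.sqrt (F x.1 x.2)) (fun x => Real.sqrt (G x.1 x.2))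
    have e1 : ∑ x : A × B, Real.sqrt (F x.1 x.2) ^ 2 = ∑ a, ∑ b, F a b := by
      rw [Fintype.sum_prod_type]
      exact Finset.sum_congr rfl fun a _ => Finset.sum_congr rfl fun b _ => Real.sq_sqrt (hF0 a b)
    have e2 : ∑ x : A × B, Real.sqrt (G x.1 x.2) ^ 2 = ∑ a, ∑ b, G a b := by
      rw [Fintype.sum_prod_type]
      exact Finset.sum_congr rfl fun a _ => Finset.sum_congr rfl fun b _ => Real.sq_sqrt (hG0 a b)
    rw [e1, e2] at c1
    refine le_trans ?_ c1
    have e3 : (∑ a, α a) * ∑ b, β b = ∑ x : A × B, α x.1 * β x.2 := by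
      rw [Finset.sum_mul_sum, Fintype.sum_prod_type]
    rw [e3]
    refine pow_le_pow_left₀ (Finset.sum_nonneg fun x _ => mul_nonneg (hα _) (hβ _)) ?_ 2
    refine Finset.sum_le_sum fun x _ => ?_
    rw [← Real.sqrt_mul (hF0 _ _)]
    refine Real.le_sqrt_of_sq_le ?_
    exact point_two φ ψ p q α β γ δ hα hβ hc x.1 x.2
  have hA : 0 ≤ ∑ a, α a := Finset.sum_nonneg fun a _ => hα a
  have hB : 0 ≤ ∑ b, β b := Finset.sum_nonneg fun b _ => hβ b
  have hC : 0 ≤ ∑ c, γ c := Finset.sum_nonneg fun a _ => hγ a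
  have hD : 0 ≤ ∑ d, δ d := Finset.sum_nonneg fun b _ => hδ b
  have fin : ((∑ a, α a) * ∑ b, β b) ^ 2 ≤
      ((∑ c, γ c) * ∑ d, δ d) * ((∑ a, α a) * ∑ b, β b) := by
    refine cs.trans ?_
    calc (∑ a, ∑ b, F a b) * ∑ a, ∑ b, G a b
        ≤ ((∑ c, γ c) * ∑ b, β b) * ((∑ d, δ d) * ∑ a, α a) := by
          refine mul_le_mul kF kG ?_ (mul_nonneg hC hB)
          exact Finset.sum_nonneg fun a _ => Finset.sum_nonneg fun b _ => hG0 a b
      _ = ((∑ c, γ c) * ∑ d, δ d) * ((∑ a, α a) * ∑ b, β b) := by ring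
  rcases (mul_nonneg hA hB).eq_or_lt with h0 | h0
  · rw [← h0]
    exact mul_nonneg hC hD
  · rw [sq] at fin
    exact le_of_mul_le_mul_right fin h0

end

end Pool.Agent.GXP
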